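import Mathlib

/-!
# MP_31821e_co, Q2: the retractions of a complete lattice form a complete lattice

Let `f` be the pointwise supremum of a set `S` of retractions of `L`. The map `g ↦ f ⊔ g ∘ g` on the
complete lattice of all order-preserving maps `L → L` has a least fixed point `μ` (Knaster and
Tarski). It satisfies `μ ∘ μ ≤ μ`, and `g ≤ g ∘ g` passes from `f` to `μ` by induction; so `μ` is a
retraction, and it is the least one above `S`.
-/

set_option autoImplicit false

namespace Pool.Agent.Results.MP_31821e_co.CompleteLattices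

universe u

/-- The retractions of `L`: the order-preserving idempotent maps `L → L`, ordered pointwise (the
order of a subtype of the type of all maps). -/
abbrev Retr (L : Type u) [Lattice L] : Type u := {r : L → L // Monotone r ∧ ∀ x, r (r x) = r x}

variable {L : Type u} [CompleteLattice L]

/-- the map `g ↦ f ⊔ g ∘ g` on the order-preserving maps -/
def Phi (f : L →o L) : (L →o L) →o (L →o L) where
  toFun g := f ⊔ g.comp g
  monotone' := by
    intro g g' h x
    exact sup_le_sup le_rfl ((h (g x)).trans (g'.monotone (h x)))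

theorem Phi_apply (f g : L →o L) (x : L) : Phi f g x = f x ⊔ g (g x) := rfl

/-- the least fixed point is expanding in the sense `μ ≤ μ ∘ μ` -/
theorem le_comp (f : L →o L) (hf : f ≤ f.comp f) :
    (Phi f).lfp ≤ (Phi f).lfp.comp (Phi f).lfp := by
  refine OrderHom.lfp_induction (Phi f) (p := fun g : L →o L => g ≤ g.comp g) ?_ ?_
  · intro g hg _ x
    rw [OrderHom.comp_coe, Function.comp_apply, Phi_apply]
    have h1 : f ≤ Phi f g := fun y => le_sup_left
    have h2 : g.comp g ≤ Phi f g := fun y => le_sup_right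
    refine sup_le ?_ ?_
    · calc f x ≤ f (f x) := hf x
        _ ≤ f (Phi f g x) := f.monotone (h1 x)
        _ ≤ Phi f g (Phi f g x) := h1 _
    · calc g (g x) ≤ g (g (g x)) := hg _
        _ ≤ g (g (g (g x))) := hg _
        _ = (g.comp g) ((g.comp g) x) := rfl
        _ ≤ (g.comp g) (Phi f g x) := (g.comp g).monotone (h2 x)
        _ ≤ Phi f g (Phi f g x) := h2 _
  · intro s hs
    refine sSup_le fun g hg x => ?_
    have h1 : g ≤ sSup s := le_sSup hg
    calc g x ≤ g (g x) := hs g hg x
      _ ≤ g (sSup s x) := g.monotone (h1 x)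
      _ ≤ sSup s (sSup s x) := h1 _

/-- every set of retractions has a least upper bound -/
theorem exists_isLUB (S : Set (Retr L)) : ∃ t : Retr L, IsLUB S t := by
  let T : Set (L →o L) := {g | ∃ r ∈ S, (g : L → L) = r.1}
  let f : L →o L := sSup T
  have hT : ∀ r ∈ S, ∀ x, r.1 x ≤ f x := by
    intro r hr x
    have h1 : (⟨r.1, r.2.1⟩ : L →o L) ∈ T := ⟨r, hr, rfl⟩
    exact (le_sSup h1 : (⟨r.1, r.2.1⟩ : L →o L) ≤ f) x
  have hf : f ≤ f.comp f := by
    refine sSup_le ?_
    rintro g ⟨r, hr, hg⟩ x
    have h1 : g x = r.1 x := congrFun hg x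
    calc g x = r.1 (r.1 x) := by rw [h1, r.2.2]
      _ ≤ r.1 (f x) := r.2.1 (hT r hr x)
      _ ≤ f (f x) := hT r hr _
  have hfix : ∀ x, f x ⊔ (Phi f).lfp ((Phi f).lfp x) = (Phi f).lfp x := by
    intro x
    have h := (Phi f).map_lfp
    exact congrArg (fun g : L →o L => g x) h
  refine ⟨⟨(Phi f).lfp, (Phi f).lfp.monotone, fun x => le_antisymm ?_ ?_⟩, ?_, ?_⟩
  · calc (Phi f).lfp ((Phi f).lfp x) ≤ f x ⊔ (Phi f).lfp ((Phi f).lfp x) := le_sup_right
      _ = (Phi f).lfp x := hfix x
  · exact le_comp f hf x
  · intro r hr x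
    calc r.1 x ≤ f x := hT r hr x
      _ ≤ f x ⊔ (Phi f).lfp ((Phi f).lfp x) := le_sup_left
      _ = (Phi f).lfp x := hfix x
  · intro h hh
    have h1 : (Phi f).lfp ≤ (⟨h.1, h.2.1⟩ : L →o L) := by
      refine OrderHom.lfp_le _ fun x => ?_
      show f x ⊔ h.1 (h.1 x) ≤ h.1 x
      refine sup_le ?_ ?_
      · have h2 : f ≤ (⟨h.1, h.2.1⟩ : L →o L) := by
          refine sSup_le ?_
          rintro g ⟨r, hr, hg⟩ y
          show g y ≤ h.1 y
          rw [show g y = r.1 y from congrFun hg y]
          exact hh hr y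
        exact h2 x
      · exact (h.2.2 x).le
    exact h1

/-- **Theorem (Q2).** For every complete lattice `L` every set of retractions of `L` has a least
upper bound and a greatest lower bound in the poset `Retr L` of all retractions: `Retr L` is a
complete lattice. -/
theorem result (L : Type u) [CompleteLattice L] (S : Set (Retr L)) :
    (∃ t : Retr L, IsLUB S t) ∧ ∃ t : Retr L, IsGLB S t := by
  refine ⟨exists_isLUB S, ?_⟩
  obtain ⟨t, ht⟩ := exists_isLUB (lowerBounds S)
  exact ⟨t, isLUB_lowerBounds.1 ht⟩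

end Pool.Agent.Results.MP_31821e_co.CompleteLattices
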